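import Mathlib

/-! The compact metrizable space of 1-Lipschitz functions `ℝ → [0, 1]` with its translation flow. -/

open Set Filter Topology

namespace Pool.Agent.Run7.h951.FF

/-- 1-Lipschitz functions `ℝ → [0, 1]` -/
def LSet : Set (ℝ → ℝ) := {f | (∀ x, 0 ≤ f x ∧ f x ≤ 1) ∧ ∀ x y, |f x - f y| ≤ |x - y|}

/-- the space of 1-Lipschitz functions `ℝ → [0, 1]` (topology of pointwise convergence) -/
abbrev L : Type := LSet

lemma isCompact_LSet : IsCompact LSet := by
  refine (isCompact_univ_pi (fun _ : ℝ => isCompact_Icc (a := (0 : ℝ)) (b := 1))).of_isClosed_subset ?_ ?_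
  · have h1 : LSet = (⋂ x : ℝ, {f : ℝ → ℝ | 0 ≤ f x} ∩ {f | f x ≤ 1}) ∩ ⋂ x : ℝ, ⋂ y : ℝ, {f : ℝ → ℝ | |f x - f y| ≤ |x - y|} := by
      ext f
      simp only [LSet, Set.mem_ofPred_eq, mem_inter_iff, mem_iInter]
    rw [h1]
    refine IsClosed.inter (isClosed_iInter fun x => IsClosed.inter ?_ ?_) (isClosed_iInter fun x => isClosed_iInter fun y => ?_)
    · exact isClosed_le continuous_const (continuous_apply x)
    · exact isClosed_le (continuous_apply x) continuous_const
    · exact isClosed_le ((continuous_apply x).sub (continuous_apply y)).abs continuous_const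
  · intro f hf
    simp only [Set.mem_pi, mem_univ, true_implies, mem_Icc]
    exact hf.1

instance : CompactSpace L := isCompact_iff_compactSpace.1 isCompact_LSet

lemma ev_cont (x : ℝ) : Continuous fun f : L => f.1 x := (continuous_apply x).comp continuous_subtype_val

lemma L_cont (f : L) : Continuous f.1 := by
  have h : LipschitzWith 1 f.1 := LipschitzWith.of_dist_le_mul fun x y => by
    rw [NNReal.coe_one, one_mul, Real.dist_eq, Real.dist_eq]
    exact f.2.2 x y
  exact h.continuous

instance : TopologicalSpace.MetrizableSpace L := by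
  let r : L → (ℚ → ℝ) := fun f q => f.1 q
  have hc : Continuous r := continuous_pi fun q => ev_cont q
  have hi : Function.Injective r := by
    intro f g h
    apply Subtype.ext
    have h1 : f.1 = g.1 := by
      refine (L_cont f).ext_on Rat.denseRange_cast (L_cont g) ?_
      rintro _ ⟨q, rfl⟩
      exact congrFun h q
    exact h1
  exact (hc.isClosedEmbedding hi).isEmbedding.metrizableSpace

/-- translation -/
def sh (t : ℝ) (f : L) : L := ⟨fun x => f.1 (x + t), fun x => f.2.1 _, fun x y => by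
  have h := f.2.2 (x + t) (y + t)
  rwa [add_sub_add_right_eq_sub] at h⟩

lemma sh_cont : Continuous fun p : ℝ × L => sh p.1 p.2 := by
  refine Continuous.subtype_mk ?_ _
  refine continuous_pi fun x => ?_
  rw [continuous_iff_continuousAt]
  rintro ⟨t₀, f₀⟩
  show Tendsto (fun p : ℝ × L => p.2.1 (x + p.1)) (𝓝 (t₀, f₀)) (𝓝 (f₀.1 (x + t₀)))
  rw [tendsto_iff_dist_tendsto_zero]
  have h1 : Tendsto (fun p : ℝ × L => |p.1 - t₀| + |p.2.1 (x + t₀) - f₀.1 (x + t₀)|) (𝓝 (t₀, f₀)) (𝓝 0) := by
    have hc : Continuous fun p : ℝ × L => |p.1 - t₀| + |p.2.1 (x + t₀) - f₀.1 (x + t₀)| :=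
      ((continuous_fst.sub continuous_const).abs).add
        ((((ev_cont (x + t₀)).comp continuous_snd).sub continuous_const).abs)
    have h2 := hc.tendsto (t₀, f₀)
    simpa using h2
  refine squeeze_zero (fun _ => dist_nonneg) (fun p => ?_) h1
  rw [Real.dist_eq]
  have h3 := p.2.2.2 (x + p.1) (x + t₀)
  rw [add_sub_add_left_eq_sub] at h3
  calc |p.2.1 (x + p.1) - f₀.1 (x + t₀)|
      = |(p.2.1 (x + p.1) - p.2.1 (x + t₀)) + (p.2.1 (x + t₀) - f₀.1 (x + t₀))| := by ring_nf
    _ ≤ _ := (abs_add_le _ _).trans (by linarith)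

lemma sh_zero (f : L) : sh 0 f = f := by
  apply Subtype.ext
  funext x
  show f.1 (x + 0) = f.1 x
  rw [add_zero]

lemma sh_add (s t : ℝ) (f : L) : sh (s + t) f = sh s (sh t f) := by
  apply Subtype.ext
  funext x
  show f.1 (x + (s + t)) = f.1 ((x + s) + t)
  rw [add_assoc]

/-- a continuous function on `L` depends, up to `1/10`, only on a bounded window -/
lemma window (G : L → ℝ) (hG : Continuous G) : ∃ m : ℕ, ∀ f g : L, (∀ x, |x| ≤ (m : ℝ) → f.1 x = g.1 x) →
    |G f - G g| ≤ 1 / 10 := by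
  by_contra hcon
  push Not at hcon
  choose f g hfg hd using hcon
  letI : MetricSpace L := TopologicalSpace.metrizableSpaceMetric L
  obtain ⟨⟨a, b⟩, φ, hφ, hlim⟩ := CompactSpace.tendsto_subseq (fun m => (f m, g m))
  have ha : Tendsto (fun k => f (φ k)) atTop (𝓝 a) := (continuous_fst.tendsto (a, b)).comp hlim
  have hb : Tendsto (fun k => g (φ k)) atTop (𝓝 b) := (continuous_snd.tendsto (a, b)).comp hlim
  have hab : a = b := by
    apply Subtype.ext
    funext x
    have h1 : Tendsto (fun k => (f (φ k)).1 x) atTop (𝓝 (a.1 x)) := ((ev_cont x).tendsto a).comp ha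
    have h2 : Tendsto (fun k => (g (φ k)).1 x) atTop (𝓝 (b.1 x)) := ((ev_cont x).tendsto b).comp hb
    refine tendsto_nhds_unique (h1.congr' ?_) h2
    obtain ⟨N, hN⟩ := exists_nat_ge |x|
    filter_upwards [eventually_ge_atTop N] with k hk
    refine hfg (φ k) x (hN.trans ?_)
    exact_mod_cast hk.trans (hφ.id_le k)
  have h3 : Tendsto (fun k => |G (f (φ k)) - G (g (φ k))|) atTop (𝓝 |G a - G b|) :=
    (((hG.tendsto a).comp ha).sub ((hG.tendsto b).comp hb)).abs
  rw [hab, sub_self, abs_zero] at h3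
  have h4 := ge_of_tendsto h3 (Eventually.of_forall fun k => (hd (φ k)).le)
  norm_num at h4

end Pool.Agent.Run7.h951.FF
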