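import Pool.Agent.Run7.h951.FF.A
import Pool.Agent.H63Fed.Miranda

/-! Gluing blocks of 1-Lipschitz functions. -/

open Set Filter Topology

namespace Pool.Agent.Run7.h951.FF

noncomputable section

/-- truncation to `[-m, m]` -/
def cl (m : ℕ) (x : ℝ) : ℝ := max (-(m : ℝ)) (min m x)

/-- the largest 1-Lipschitz extension of `h` restricted to `[-m, m]` -/
def ext (m : ℕ) (h : ℝ → ℝ) (x : ℝ) : ℝ := h (cl m x) + |x - cl m x|

lemma cl_of_mem {m : ℕ} {x : ℝ} (hx : |x| ≤ m) : cl m x = x := by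
  unfold cl
  rw [abs_le] at hx
  rw [min_eq_right hx.2, max_eq_right hx.1]

lemma cl_abs (m : ℕ) (x : ℝ) : |cl m x| ≤ m := by
  unfold cl
  rw [abs_le]
  have hm : (0 : ℝ) ≤ m := Nat.cast_nonneg m
  exact ⟨le_max_left _ _, max_le (by linarith) (min_le_left _ _)⟩

lemma cl_mono (m : ℕ) {x y : ℝ} (h : x ≤ y) : cl m x ≤ cl m y :=
  max_le_max le_rfl (min_le_min le_rfl h)

lemma sub_cl_mono (m : ℕ) {x y : ℝ} (h : x ≤ y) : x - cl m x ≤ y - cl m y := by
  have h1 : cl m y ≤ cl m x + (y - x) := by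
    have h2 : min (m : ℝ) x ≤ cl m x := le_max_right _ _
    have h3 : -(m : ℝ) ≤ cl m x := le_max_left _ _
    refine max_le (by linarith) ?_
    rcases le_total (m : ℝ) x with h4 | h4
    · rw [min_eq_left h4] at h2
      linarith [min_le_left (m : ℝ) y]
    · rw [min_eq_right h4] at h2
      linarith [min_le_right (m : ℝ) y]
  linarith

lemma ext_lip_aux {m : ℕ} {h : ℝ → ℝ} (hl : ∀ x y, |h x - h y| ≤ |x - y|) {x y : ℝ} (hxy : x ≤ y) :
    |ext m h x - ext m h y| ≤ y - x := by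
  have h1 := hl (cl m x) (cl m y)
  have h2 : |cl m x - cl m y| = cl m y - cl m x := by
    rw [abs_sub_comm, abs_of_nonneg (sub_nonneg.2 (cl_mono m hxy))]
  have h3 : |(|x - cl m x| - |y - cl m y|)| ≤ (y - cl m y) - (x - cl m x) := by
    refine (abs_abs_sub_abs_le_abs_sub _ _).trans ?_
    rw [abs_sub_comm, abs_of_nonneg (sub_nonneg.2 (sub_cl_mono m hxy))]
  have h4 : ext m h x - ext m h y = (h (cl m x) - h (cl m y)) + (|x - cl m x| - |y - cl m y|) := by
    unfold ext; ring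
  rw [h4]
  refine (abs_add_le _ _).trans ?_
  linarith

lemma ext_lip {m : ℕ} {h : ℝ → ℝ} (hl : ∀ x y, |h x - h y| ≤ |x - y|) (x y : ℝ) :
    |ext m h x - ext m h y| ≤ |x - y| := by
  rcases le_total x y with hxy | hxy
  · rw [abs_sub_comm x y, abs_of_nonneg (sub_nonneg.2 hxy)]
    exact ext_lip_aux hl hxy
  · rw [abs_of_nonneg (sub_nonneg.2 hxy), abs_sub_comm]
    exact ext_lip_aux hl hxy

lemma ext_nonneg {m : ℕ} {h : ℝ → ℝ} (h0 : ∀ x, 0 ≤ h x) (x : ℝ) : 0 ≤ ext m h x :=
  add_nonneg (h0 _) (abs_nonneg _)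

lemma ext_of_mem {m : ℕ} {h : ℝ → ℝ} {x : ℝ} (hx : |x| ≤ m) : ext m h x = h x := by
  unfold ext
  rw [cl_of_mem hx]
  simp

lemma ext_far {m : ℕ} {h : ℝ → ℝ} (h0 : ∀ x, 0 ≤ h x) {x : ℝ} (hx : (m : ℝ) + 1 ≤ |x|) : 1 ≤ ext m h x := by
  unfold ext
  have h1 := cl_abs m x
  have h2 : |x| ≤ |x - cl m x| + |cl m x| := by
    have := abs_add_le (x - cl m x) (cl m x)
    rwa [sub_add_cancel] at this
  linarith [h0 (cl m x)]

/-- truncation to `[0, 1]` -/
def c1 (τ : ℝ) : ℝ := max 0 (min 1 τ)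

lemma c1_nonneg (τ : ℝ) : 0 ≤ c1 τ := le_max_left _ _

lemma c1_le (τ : ℝ) : c1 τ ≤ 1 := max_le zero_le_one (min_le_left _ _)

/-- the segment from `f` to `f'` -/
def gam (f f' : L) (τ : ℝ) : L := ⟨fun x => (1 - c1 τ) * f.1 x + c1 τ * f'.1 x, by
  have h0 := c1_nonneg τ
  have h1 := c1_le τ
  constructor
  · intro x
    have a := f.2.1 x
    have b := f'.2.1 x
    constructor
    · nlinarith [mul_nonneg (sub_nonneg.2 h1) a.1, mul_nonneg h0 b.1]
    · nlinarith [mul_le_mul_of_nonneg_left a.2 (sub_nonneg.2 h1), mul_le_mul_of_nonneg_left b.2 h0]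
  · intro x y
    have a := f.2.2 x y
    have b := f'.2.2 x y
    have e : (1 - c1 τ) * f.1 x + c1 τ * f'.1 x - ((1 - c1 τ) * f.1 y + c1 τ * f'.1 y) =
        (1 - c1 τ) * (f.1 x - f.1 y) + c1 τ * (f'.1 x - f'.1 y) := by ring
    show |(1 - c1 τ) * f.1 x + c1 τ * f'.1 x - ((1 - c1 τ) * f.1 y + c1 τ * f'.1 y)| ≤ |x - y|
    rw [e]
    refine (abs_add_le _ _).trans ?_
    rw [abs_mul, abs_mul, abs_of_nonneg h0, abs_of_nonneg (sub_nonneg.2 h1)]
    nlinarith [mul_le_mul_of_nonneg_left a (sub_nonneg.2 h1), mul_le_mul_of_nonneg_left b h0]⟩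

/-- the functions whose minimum is the glued function -/
def pcs (f f' : L) (m n : ℕ) (t : Fin n → ℝ) (x : ℝ) (o : Option (Fin n)) : ℝ :=
  match o with
  | none => 1
  | some j => ext m (gam f f' (t j)).1 (x - (j : ℕ) * (2 * m + 1))

lemma pcs_lip (f f' : L) (m n : ℕ) (t : Fin n → ℝ) (x y : ℝ) (o : Option (Fin n)) :
    pcs f f' m n t x o ≤ pcs f f' m n t y o + |x - y| := by
  cases o with
  | none =>
    show (1 : ℝ) ≤ 1 + |x - y|
    linarith [abs_nonneg (x - y)]
  | some j =>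
    have h := ext_lip (m := m) (gam f f' (t j)).2.2 (x - (j : ℕ) * (2 * m + 1)) (y - (j : ℕ) * (2 * m + 1))
    rw [sub_sub_sub_cancel_right] at h
    show ext m _ _ ≤ ext m _ _ + |x - y|
    linarith [(abs_le.1 h).2]

lemma pcs_nonneg (f f' : L) (m n : ℕ) (t : Fin n → ℝ) (x : ℝ) (o : Option (Fin n)) : 0 ≤ pcs f f' m n t x o := by
  cases o with
  | none => exact zero_le_one
  | some j => exact ext_nonneg (fun x => ((gam f f' (t j)).2.1 x).1) _

/-- the glued function -/
def glue (f f' : L) (m n : ℕ) (t : Fin n → ℝ) : L :=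
  ⟨fun x => Finset.univ.inf' ⟨none, Finset.mem_univ _⟩ (pcs f f' m n t x), by
    constructor
    · intro x
      refine ⟨Finset.le_inf' _ _ fun o _ => pcs_nonneg f f' m n t x o, ?_⟩
      exact Finset.inf'_le (pcs f f' m n t x) (Finset.mem_univ none)
    · intro x y
      have h : ∀ x y : ℝ, Finset.univ.inf' ⟨none, Finset.mem_univ _⟩ (pcs f f' m n t x) -
          Finset.univ.inf' ⟨none, Finset.mem_univ _⟩ (pcs f f' m n t y) ≤ |x - y| := by
        intro x y
        rw [sub_le_comm]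
        refine Finset.le_inf' _ _ fun o ho => ?_
        have h1 := Finset.inf'_le (pcs f f' m n t x) ho
        linarith [pcs_lip f f' m n t x y o]
      rw [abs_le]
      constructor
      · have := h y x
        rw [abs_sub_comm] at this
        linarith
      · exact h x y⟩

lemma glue_window (f f' : L) (m n : ℕ) (t : Fin n → ℝ) (j : Fin n) {x : ℝ} (hx : |x| ≤ m) :
    (sh ((j : ℕ) * (2 * m + 1)) (glue f f' m n t)).1 x = (gam f f' (t j)).1 x := by
  show Finset.univ.inf' ⟨none, Finset.mem_univ _⟩ (pcs f f' m n t (x + (j : ℕ) * (2 * m + 1))) = _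
  have e1 : pcs f f' m n t (x + (j : ℕ) * (2 * m + 1)) (some j) = (gam f f' (t j)).1 x := by
    show ext m _ _ = _
    rw [add_sub_cancel_right, ext_of_mem hx]
  refine le_antisymm ?_ ?_
  · rw [← e1]
    exact Finset.inf'_le (pcs f f' m n t _) (Finset.mem_univ (some j))
  · refine Finset.le_inf' _ _ fun o _ => ?_
    have hle := ((gam f f' (t j)).2.1 x).2
    cases o with
    | none => exact hle
    | some i =>
      by_cases hij : i = j
      · rw [hij, e1]
      · refine hle.trans ?_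
        show 1 ≤ ext m _ _
        refine ext_far (fun x => ((gam f f' (t i)).2.1 x).1) ?_
        have h1 : (1 : ℝ) ≤ |((j : ℕ) : ℝ) - ((i : ℕ) : ℝ)| := by
          have h2 : ((j : ℕ) : ℤ) - ((i : ℕ) : ℤ) ≠ 0 := by
            intro h3
            apply hij
            apply Fin.ext
            omega
          have h3 : (1 : ℤ) ≤ |((j : ℕ) : ℤ) - ((i : ℕ) : ℤ)| := Int.one_le_abs h2
          exact_mod_cast h3
        have h2 : x + (j : ℕ) * (2 * m + 1) - (i : ℕ) * (2 * m + 1) =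
            x + (((j : ℕ) : ℝ) - ((i : ℕ) : ℝ)) * (2 * m + 1) := by ring
        rw [h2]
        have h3 : |(((j : ℕ) : ℝ) - ((i : ℕ) : ℝ)) * (2 * m + 1)| ≤
            |x + (((j : ℕ) : ℝ) - ((i : ℕ) : ℝ)) * (2 * m + 1)| + |x| := by
          have h4 := abs_add_le (x + (((j : ℕ) : ℝ) - ((i : ℕ) : ℝ)) * (2 * m + 1)) (-x)
          rw [abs_neg] at h4
          have h5 : x + (((j : ℕ) : ℝ) - ((i : ℕ) : ℝ)) * (2 * m + 1) + -x =
              (((j : ℕ) : ℝ) - ((i : ℕ) : ℝ)) * (2 * m + 1) := by ring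
          rwa [h5] at h4
        rw [abs_mul, abs_of_pos (by positivity : (0 : ℝ) < 2 * m + 1)] at h3
        have hm : (0 : ℝ) ≤ m := Nat.cast_nonneg m
        nlinarith [mul_le_mul_of_nonneg_right h1 (by positivity : (0 : ℝ) ≤ 2 * (m : ℝ) + 1)]

lemma glue_cont (f f' : L) (m n : ℕ) : Continuous (glue f f' m n) := by
  refine Continuous.subtype_mk ?_ _
  refine continuous_pi fun x => ?_
  refine Continuous.finset_inf'_apply _ fun o _ => ?_
  cases o with
  | none => exact continuous_const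
  | some j =>
    have h1 : Continuous fun t : Fin n → ℝ => c1 (t j) :=
      continuous_const.max (continuous_const.min (continuous_apply j))
    show Continuous fun t : Fin n → ℝ => ((1 - c1 (t j)) * f.1 _ + c1 (t j) * f'.1 _) + |_|
    exact (((continuous_const.sub h1).mul continuous_const).add (h1.mul continuous_const)).add continuous_const

/-- all values of a continuous function are attained independently on the blocks -/
theorem hit (G : L → ℝ) (hG : Continuous G) (f f' : L) (h0 : G f = 0) (h1 : G f' = 1) :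
    ∃ m : ℕ, ∀ (n : ℕ) (c : Fin n → ℝ), (∀ j, 1 / 10 ≤ c j ∧ c j ≤ 9 / 10) →
      ∃ u : L, ∀ j : Fin n, G (sh ((j : ℕ) * (2 * m + 1)) u) = c j := by
  obtain ⟨m, hm⟩ := window G hG
  refine ⟨m, fun n c hc => ?_⟩
  let F : (Fin n → ℝ) → (Fin n → ℝ) := fun t j => G (sh ((j : ℕ) * (2 * m + 1)) (glue f f' m n t)) - c j
  have hF : Continuous F := by
    refine continuous_pi fun j => Continuous.sub (hG.comp ?_) continuous_const
    exact sh_cont.comp (continuous_const.prodMk (glue_cont f f' m n))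
  have key : ∀ t : Fin n → ℝ, ∀ j, |F t j + c j - G (gam f f' (t j))| ≤ 1 / 10 := by
    intro t j
    have h2 := hm (sh ((j : ℕ) * (2 * m + 1)) (glue f f' m n t)) (gam f f' (t j))
      fun x hx => glue_window f f' m n t j hx
    have h3 : F t j + c j = G (sh ((j : ℕ) * (2 * m + 1)) (glue f f' m n t)) := sub_add_cancel _ _
    rw [h3]
    exact h2
  have g0 : ∀ τ : ℝ, τ = 0 → gam f f' τ = f := by
    intro τ hτ
    apply Subtype.ext
    funext x
    show (1 - c1 τ) * f.1 x + c1 τ * f'.1 x = f.1 x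
    have : c1 τ = 0 := by rw [hτ]; unfold c1; norm_num
    rw [this]; ring
  have g1 : ∀ τ : ℝ, τ = 1 → gam f f' τ = f' := by
    intro τ hτ
    apply Subtype.ext
    funext x
    show (1 - c1 τ) * f.1 x + c1 τ * f'.1 x = f'.1 x
    have : c1 τ = 1 := by rw [hτ]; unfold c1; norm_num
    rw [this]; ring
  obtain ⟨t, _, ht⟩ := H63Fed.Miranda.poincare_miranda n F hF.continuousOn
    (by
      intro t _ j hj
      have h2 := key t j
      rw [g0 _ hj, h0, abs_le] at h2
      linarith [(hc j).1, h2.2])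
    (by
      intro t _ j hj
      have h2 := key t j
      rw [g1 _ hj, h1, abs_le] at h2
      linarith [(hc j).2, h2.1])
  refine ⟨glue f f' m n t, fun j => ?_⟩
  have h2 := congrFun ht j
  exact sub_eq_zero.1 h2

end

end Pool.Agent.Run7.h951.FF
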