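import Pool.Agent.Run7.h951.FF.B

/-! Every flow factor which separates two points of the same fibre has infinite entropy. -/

open Set Filter Topology Uniformity UniformSpace

namespace Pool.Agent.Run7.h951.FF

noncomputable section

/-- a lower bound for the entropy from separated orbits -/
theorem entropy_ge {Y : Type} [MetricSpace Y] (S : Y → Y) (ε : ℝ) (hε : 0 < ε) (M N : ℕ) (hM : 0 < M)
    (y : (n : ℕ) → (Fin n → Fin (N + 1)) → Y)
    (hy : ∀ n κ κ', κ ≠ κ' → ∃ j : Fin n, 2 * ε ≤ dist (S^[(j : ℕ) * M] (y n κ)) (S^[(j : ℕ) * M] (y n κ'))) :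
    ((Real.log (N + 1) / M : ℝ) : EReal) ≤ Dynamics.coverEntropy S univ := by
  classical
  have hU : {p : Y × Y | dist p.1 p.2 < ε} ∈ 𝓤 Y := Metric.dist_mem_uniformity hε
  refine le_trans ?_ (Dynamics.netEntropyEntourage_le_coverEntropy S univ hU)
  refine Frequently.le_expGrowthSup ?_
  rw [frequently_atTop]
  intro a
  refine ⟨(a + 1) * M, ?_, ?_⟩
  · nlinarith
  have hcard : ((N + 1) ^ (a + 1) : ℕ) ≤ Dynamics.netMaxcard S univ {p : Y × Y | dist p.1 p.2 < ε} ((a + 1) * M) := by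
    let s : Finset Y := Finset.univ.image (y (a + 1))
    have hinj : Function.Injective (y (a + 1)) := by
      intro κ κ' h
      by_contra hne
      obtain ⟨j, hj⟩ := hy (a + 1) κ κ' hne
      rw [h, dist_self] at hj
      linarith
    have hs : s.card = (N + 1) ^ (a + 1) := by
      rw [Finset.card_image_of_injective _ hinj, Finset.card_univ, Fintype.card_fun, Fintype.card_fin,
        Fintype.card_fin]
    have hnet : Dynamics.IsDynNetIn S univ {p : Y × Y | dist p.1 p.2 < ε} ((a + 1) * M) s := by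
      refine ⟨subset_univ _, ?_⟩
      intro u hu v hv huv
      obtain ⟨κ, _, rfl⟩ := Finset.mem_image.1 (Finset.mem_coe.1 hu)
      obtain ⟨κ', _, rfl⟩ := Finset.mem_image.1 (Finset.mem_coe.1 hv)
      have hne : κ ≠ κ' := fun h => huv (by rw [h])
      obtain ⟨j, hj⟩ := hy (a + 1) κ κ' hne
      rw [Function.onFun, Set.disjoint_left]
      intro z hz hz'
      rw [Dynamics.mem_ball_dynEntourage] at hz hz'
      have hjlt : (j : ℕ) * M < (a + 1) * M := Nat.mul_lt_mul_of_pos_right j.2 hM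
      have h1 : dist (S^[(j : ℕ) * M] (y (a + 1) κ)) (S^[(j : ℕ) * M] z) < ε := hz _ hjlt
      have h2 : dist (S^[(j : ℕ) * M] (y (a + 1) κ')) (S^[(j : ℕ) * M] z) < ε := hz' _ hjlt
      have h3 := dist_triangle_right (S^[(j : ℕ) * M] (y (a + 1) κ)) (S^[(j : ℕ) * M] (y (a + 1) κ'))
        (S^[(j : ℕ) * M] z)
      linarith
    have := hnet.card_le_netMaxcard
    rw [hs] at this
    exact this
  have h2 : EReal.exp (((Real.log (N + 1) / M : ℝ) : EReal) * (((a + 1) * M : ℕ) : EReal)) =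
      (((N + 1) ^ (a + 1) : ℕ) : ENNReal) := by
    have h3 : ((Real.log (N + 1) / M : ℝ) : EReal) * (((a + 1) * M : ℕ) : EReal) =
        (((a + 1 : ℕ) * Real.log (N + 1) : ℝ) : EReal) := by
      have h4 : ((((a + 1) * M : ℕ)) : EReal) = ((((a + 1) * M : ℕ) : ℝ) : EReal) := rfl
      rw [h4, ← EReal.coe_mul]
      congr 1
      have hM' : (M : ℝ) ≠ 0 := by exact_mod_cast hM.ne'
      push_cast
      field_simp
    rw [h3, EReal.exp_coe, mul_comm, Real.exp_mul, Real.exp_log (by positivity), Real.rpow_natCast]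
    rw [← Nat.cast_add_one, ← Nat.cast_pow, ENNReal.ofReal_natCast]
  rw [h2]
  have h5 : ((((N + 1) ^ (a + 1) : ℕ) : ℕ∞) : ENNReal) ≤
      ((Dynamics.netMaxcard S univ {p : Y × Y | dist p.1 p.2 < ε} ((a + 1) * M) : ℕ∞) : ENNReal) :=
    ENat.toENNReal_mono (by exact_mod_cast hcard)
  simpa using h5

/-- a nonconstant equivariant map of `L` into a system gives infinite entropy -/
theorem entropy_top {Y : Type} [MetricSpace Y] (S : Y → Y) (P : L → Y) (hP : Continuous P)
    (hS : ∀ f, P (sh 1 f) = S (P f)) {f f' : L} (hff : P f ≠ P f') : Dynamics.coverEntropy S univ = ⊤ := by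
  have hD : 0 < dist (P f') (P f) := dist_pos.2 (Ne.symm hff)
  set D := dist (P f') (P f) with hDdef
  let g : Y → ℝ := fun y => min 1 (dist y (P f) / D)
  have hg : Continuous g := continuous_const.min ((continuous_id.dist continuous_const).div_const _)
  have hgl : ∀ y y', |g y - g y'| ≤ dist y y' / D := by
    intro y y'
    have h1 : |g y - g y'| ≤ |dist y (P f) / D - dist y' (P f) / D| := by
      have := abs_min_sub_min_le_max (1 : ℝ) (dist y (P f) / D) 1 (dist y' (P f) / D)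
      rw [sub_self, abs_zero, max_eq_right (abs_nonneg _)] at this
      exact this
    refine h1.trans ?_
    rw [← sub_div, abs_div, abs_of_pos hD]
    exact div_le_div_of_nonneg_right (abs_dist_sub_le _ _ _) hD.le
  have h0 : (g ∘ P) f = 0 := by
    show min 1 (dist (P f) (P f) / D) = 0
    rw [dist_self, zero_div]; norm_num
  have h1 : (g ∘ P) f' = 1 := by
    show min 1 (dist (P f') (P f) / D) = 1
    rw [← hDdef, div_self hD.ne', min_self]
  obtain ⟨m, hm⟩ := hit (g ∘ P) (hg.comp hP) f f' h0 h1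
  have hit' : ∀ (k : ℕ) (u : L), P (sh (k : ℝ) u) = S^[k] (P u) := by
    intro k
    induction k with
    | zero => intro u; rw [Nat.cast_zero, sh_zero]; rfl
    | succ k ih =>
      intro u
      rw [Nat.cast_succ, sh_add, ih, hS, ← Function.iterate_succ_apply]
  have hbound : ∀ N : ℕ, 0 < N → ((Real.log (N + 1) / ((2 * m + 1 : ℕ) : ℝ) : ℝ) : EReal) ≤ Dynamics.coverEntropy S univ := by
    intro N hN
    have hN' : (0 : ℝ) < N := by exact_mod_cast hN
    have hc : ∀ (n : ℕ) (κ : Fin n → Fin (N + 1)), ∃ u : L, ∀ j : Fin n,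
        (g ∘ P) (sh ((j : ℕ) * (2 * m + 1)) u) = 1 / 10 + 8 / 10 * ((κ j : ℕ) / N) := by
      intro n κ
      refine hm n _ fun j => ?_
      have h2 : ((κ j : ℕ) : ℝ) / N ≤ 1 := by
        rw [div_le_one hN']
        exact_mod_cast Nat.lt_succ_iff.1 (κ j).2
      have h3 : 0 ≤ ((κ j : ℕ) : ℝ) / N := by positivity
      constructor <;> linarith
    choose u hu using hc
    refine entropy_ge S (D * (4 / 10) / N) (by positivity) (2 * m + 1) N (by omega) (fun n κ => P (u n κ)) ?_
    intro n κ κ' hne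
    obtain ⟨j, hj⟩ := Function.ne_iff.1 hne
    refine ⟨j, ?_⟩
    have e1 : ∀ κ : Fin n → Fin (N + 1), g (S^[(j : ℕ) * (2 * m + 1)] (P (u n κ))) = 1 / 10 + 8 / 10 * ((κ j : ℕ) / N) := by
      intro κ
      rw [← hit', ← hu n κ j]
      show g _ = g (P _)
      push_cast
      rfl
    have h2 := hgl (S^[(j : ℕ) * (2 * m + 1)] (P (u n κ))) (S^[(j : ℕ) * (2 * m + 1)] (P (u n κ')))
    rw [e1, e1] at h2
    have h3 : (1 : ℝ) ≤ |((κ j : ℕ) : ℝ) - ((κ' j : ℕ) : ℝ)| := by
      have h4 : ((κ j : ℕ) : ℤ) - ((κ' j : ℕ) : ℤ) ≠ 0 := by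
        intro h5
        apply hj
        apply Fin.ext
        omega
      have h5 : (1 : ℤ) ≤ |((κ j : ℕ) : ℤ) - ((κ' j : ℕ) : ℤ)| := Int.one_le_abs h4
      exact_mod_cast h5
    have h4 : (1 : ℝ) / 10 + 8 / 10 * ((κ j : ℕ) / N) - (1 / 10 + 8 / 10 * ((κ' j : ℕ) / N)) =
        8 / 10 / N * (((κ j : ℕ) : ℝ) - ((κ' j : ℕ) : ℝ)) := by ring
    rw [h4, abs_mul, abs_of_pos (by positivity)] at h2
    have h5 : 8 / 10 / (N : ℝ) ≤ dist (S^[(j : ℕ) * (2 * m + 1)] (P (u n κ))) (S^[(j : ℕ) * (2 * m + 1)] (P (u n κ'))) / D :=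
      le_trans (by nlinarith [show (0 : ℝ) < 8 / 10 / N by positivity]) h2
    rw [le_div_iff₀ hD] at h5
    have h6 : 2 * (D * (4 / 10) / N) = 8 / 10 / N * D := by ring
    rw [h6]
    exact h5
  rw [EReal.eq_top_iff_forall_lt]
  intro b
  obtain ⟨N, hN⟩ := exists_nat_gt (Real.exp (b * ((2 * m + 1 : ℕ) : ℝ)))
  have hNpos : 0 < N := by
    have : (0 : ℝ) < N := (Real.exp_pos _).trans hN
    exact_mod_cast this
  refine lt_of_lt_of_le ?_ (hbound N hNpos)
  rw [EReal.coe_lt_coe_iff, lt_div_iff₀ (by positivity)]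
  rw [Real.lt_log_iff_exp_lt (by positivity)]
  linarith

/-- the flow on `L × ℝ/ℤ` -/
def flow : Flow ℝ (L × UnitAddCircle) where
  toFun t p := (sh t p.1, p.2 + (t : UnitAddCircle))
  cont' := by
    refine Continuous.prodMk ?_ ?_
    · exact sh_cont.comp (continuous_fst.prodMk (continuous_fst.comp continuous_snd))
    · exact (continuous_snd.comp continuous_snd).add ((AddCircle.continuous_mk' 1).comp continuous_fst)
  map_add' s t p := by
    refine Prod.ext (sh_add s t p.1) ?_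
    show p.2 + ((s + t : ℝ) : UnitAddCircle) = p.2 + (t : UnitAddCircle) + (s : UnitAddCircle)
    rw [AddCircle.coe_add]
    abel
  map_zero' p := by
    refine Prod.ext (sh_zero p.1) ?_
    show p.2 + ((0 : ℝ) : UnitAddCircle) = p.2
    rw [AddCircle.coe_zero, add_zero]

/-- constant functions -/
def cst (c : ℝ) (h0 : 0 ≤ c) (h1 : c ≤ 1) : L := ⟨fun _ => c, fun _ => ⟨h0, h1⟩, fun x y => by
  rw [sub_self, abs_zero]; exact abs_nonneg _⟩

/-- **Main theorem.** -/
theorem main : ∃ (X : Type) (_ : MetricSpace X) (_ : CompactSpace X) (φ : Flow ℝ X),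
    (∀ x, ∃ t, φ t x ≠ x) ∧ (∃ w w' : X, w ≠ w' ∧
    ∀ (Y : Type) [MetricSpace Y] [CompactSpace Y] (ψ : Flow ℝ Y) (π : X → Y), Continuous π → Function.Surjective π →
      (∀ t x, π (φ t x) = ψ t (π x)) → π w ≠ π w' → Dynamics.coverEntropy (ψ 1) univ = ⊤) := by
  letI : MetricSpace L := TopologicalSpace.metrizableSpaceMetric L
  refine ⟨L × UnitAddCircle, inferInstance, inferInstance, flow, ?_, (cst 0 le_rfl zero_le_one, 0),
    (cst 1 zero_le_one le_rfl, 0), ?_, ?_⟩
  · intro x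
    refine ⟨1 / 2, fun h => ?_⟩
    have h1 : x.2 + ((1 / 2 : ℝ) : UnitAddCircle) = x.2 := congrArg Prod.snd h
    rw [add_eq_left] at h1
    have h2 := (AddCircle.coe_eq_zero_iff (1 : ℝ)).1 h1
    obtain ⟨n, hn⟩ := h2
    rw [zsmul_eq_mul, mul_one] at hn
    have h3 : ((2 * n : ℤ) : ℝ) = ((1 : ℤ) : ℝ) := by push_cast; linarith
    have h4 : 2 * n = 1 := by exact_mod_cast h3
    omega
  · intro h
    have h1 := congrArg (fun p : L × UnitAddCircle => p.1.1 0) h
    exact zero_ne_one h1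
  · intro Y _ _ ψ π hπ _ heq hne
    refine entropy_top (ψ 1) (fun f => π (f, 0)) (hπ.comp (continuous_id.prodMk continuous_const)) ?_ hne
    intro f
    rw [← heq]
    congr 1
    refine Prod.ext rfl ?_
    show (0 : UnitAddCircle) = 0 + ((1 : ℝ) : UnitAddCircle)
    rw [zero_add]
    exact (AddCircle.coe_period 1).symm

end

end Pool.Agent.Run7.h951.FF
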